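import Pool.Agent.Run7.h293.TP.World

/-!
# Nilpotent quotients of the tempered fundamental group of a `K`-analytically special variety
-/

namespace Pool.Agent.Results.MP_e120ef_ag.NilpotentQuotients

open scoped commutatorElement
open Pool.Agent.Run7.h293.TP

/-- Let `X` be a smooth projective variety with `K`-analytically special analytification and `U` an
open subgroup of finite index of its tempered fundamental group. There is `d ≥ 1` such that

1. for every closed normal subgroup `N` of `U` with nilpotent quotient of class at most `c + 1`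
   every element of the commutator subgroup of `U/N` has order dividing `d ^ c`;
2. if `U/N` is nilpotent and has no elements `≠ 1` of order dividing `d`, then `U/N` is abelian;
3. if `U` is residually such a quotient (for example residually torsion-free nilpotent, or
   residually a finite `ℓ`-group with `ℓ` prime to `d`), then `π₁^temp(X)` is virtually abelian. -/
theorem result (W : TemperedWorld) (X : W.Var) (hX : W.Special X) (U : Subgroup (W.π X))
    (hU : IsOpen (U : Set (W.π X))) (hf : U.FiniteIndex) :
    ∃ d : ℕ, 0 < d ∧ ExponentBound U d ∧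
      (∀ N : Subgroup U, Nilp N d → ∀ x y : U, ⁅x, y⁆ ∈ N) ∧
      ((∀ x : U, x ≠ 1 → ∃ N : Subgroup U, Nilp N d ∧ x ∉ N) → VirtuallyAbelian (W.π X)) := by
  obtain ⟨d, hd, h⟩ := W.exists_cupBounded X hX U hU hf
  have hb : NormalBasis U := (W.basis X).subgroup U
  refine ⟨d, hd, fun N hN hNc c hc x hx => pow_mem hb h N hN hNc c hc x hx,
    fun N hN x y => hN.comm_mem hb h x y, fun hres => ⟨U, hf, hU, fun x hx y hy => ?_⟩⟩
  by_contra hxy
  have h1 : ⁅(⟨x, hx⟩ : U), (⟨y, hy⟩ : U)⁆ ≠ 1 := by
    intro h0
    rw [commutatorElement_eq_one_iff_mul_comm] at h0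
    exact hxy (congrArg Subtype.val h0)
  obtain ⟨N, hN, hxN⟩ := hres _ h1
  exact hxN (hN.comm_mem hb h _ _)

end Pool.Agent.Results.MP_e120ef_ag.NilpotentQuotients
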